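import Pool.Agent.MP_a9d3bd_q.Defs

namespace Pool.Agent.MP_a9d3bd_h

open MvPolynomial Pool.Agent.MP_a9d3bd_q Sum

/-- Subvarieties of affine space. -/
abbrev Pr (k σ : Type) [Field k] : Type := PrimeSpectrum (MvPolynomial σ k)

variable {k σ ι ρ : Type} [Field k]

/-- The dimension of a subvariety. -/
noncomputable def dim (P : Pr k σ) : ℕ := (Algebra.trdeg k (MvPolynomial σ k ⧸ P.asIdeal)).toNat

open Classical in
/-- The intersection of a cycle with the divisor `f = 0`. -/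
noncomputable def dv (f : MvPolynomial σ k) (z : Pr k σ → ℚ) (Q : Pr k σ) : ℚ :=
  ∑ᶠ P, if f ∉ P.asIdeal ∧ dim P = dim Q + 1 then z P * (len Q P.asIdeal f).toNat else 0

/-- Cones over the subvarieties of dimension `e` of `V(S) × (A^1)^ρ` that meet all faces of the
cube in the right dimension. -/
def Adm (S : Set (MvPolynomial ι k)) (ρ : Type) (e : ℕ) : Set (Pr k (ι ⊕ ρ)) :=
  {P | (∀ f ∈ S, rename inl f ∈ P.asIdeal) ∧
    (∀ f ∈ P.asIdeal, ∀ n, weightedHomogeneousComponent (Sum.elim 1 0 : ι ⊕ ρ → ℕ) n f ∈ P.asIdeal) ∧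
    (∃ a, X (inl a) ∉ P.asIdeal) ∧ dim P = e + 1 ∧
    ∀ Q, P ≤ Q → dim Q + {r | X (inr r) ∈ Q.asIdeal ∨ X (inr r) - 1 ∈ Q.asIdeal}.ncard ≤ dim P}

/-- Admissible cycles with rational coefficients. -/
noncomputable def Ch (S : Set (MvPolynomial ι k)) (ρ : Type) (e : ℕ) :
    Submodule ℚ (Pr k (ι ⊕ ρ) →₀ ℚ) := Finsupp.supported ℚ ℚ (Adm S ρ e)

/-- The faces `t = 0` and `t = 1` vanish for the coordinates `t` in the range of `c`. -/
def Cl (c : ρ → σ) (z : Pr k σ → ℚ) : Prop := ∀ r, dv (X (c r)) z = 0 ∧ dv (X (c r) - 1) z = 0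

/-- Boundaries of the normalised cubical complex. -/
noncomputable def Bd (S : Set (MvPolynomial ι k)) (ρ : Type) (e : ℕ) :
    Submodule ℚ (Pr k (ι ⊕ ρ) →₀ ℚ) :=
  Submodule.span ℚ {z | ∃ w ∈ Ch S (Option ρ) (e + 1), Cl (fun r => inr (some r)) w ∧
    dv (X (inr none) - 1) w = 0 ∧ ∀ Q, z Q = dv (X (inr none)) w (PrimeSpectrum.comap
      (aeval (Sum.elim (fun a => X (inl a)) fun o => o.elim 0 fun r => X (inr r)) :
        MvPolynomial (ι ⊕ Option ρ) k →ₐ[k] MvPolynomial (ι ⊕ ρ) k) Q)}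

/-- The Chow group of `e`-cycles with rational coefficients. -/
abbrev CH (S : Set (MvPolynomial ι k)) (e : ℕ) : Type :=
  Ch S Empty e ⧸ (Bd S Empty e).submoduleOf (Ch S Empty e)

variable [Fintype ι] [DecidableEq ι] {d : ℕ}

/-- The coordinates `a` are local parameters of the cone over `V(S)` at `Q`. -/
def Et (S : Set (MvPolynomial ι k)) (a : Fin (d + 1) → ι) (Q : Ideal (MvPolynomial ι k)) : Prop :=
  ∃ G : ι → MvPolynomial ι k, (∀ c, G c ∈ Ideal.span S ∨ ∃ i, G c = X (a i)) ∧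
    (Matrix.of fun c b => pderiv b (G c)).det ∉ Q

/-- The projective scheme `V(S)` is smooth of pure dimension `d`. -/
def Smooth (S : Set (MvPolynomial ι k)) (d : ℕ) : Prop :=
  ∀ Q : Pr k ι, (∀ f ∈ S, f ∈ Q.asIdeal) → (Q.asIdeal ∈ (Ideal.span S).minimalPrimes → dim Q = d + 1) ∧
    ((∃ b, X b ∉ Q.asIdeal) → ∃ a : Fin (d + 1) → ι, Et S a Q.asIdeal)

open Classical in
/-- The degree of the intersection product of two subvarieties of complementary dimension:
reduction to the diagonal over the algebraic closure. -/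
noncomputable def inum (S : Set (MvPolynomial ι k)) (d : ℕ) (Z W : Pr k (ι ⊕ Empty)) : ℚ :=
  ∑ᶠ Q : Pr (AlgebraicClosure k) ((ι ⊕ ι) ⊕ Empty),
    if h : (∀ b, X (inl (inl b)) - X (inl (inr b)) ∈ Q.asIdeal) ∧
      (∃ b, X (inl (inl b)) ∉ Q.asIdeal) ∧ ∃ a : Fin (d + 1) → ι,
        Et (map (algebraMap k _) '' S) a (Q.asIdeal.comap (rename fun b => inl (inl b))) then
      (List.ofFn fun i => X (inl (inl (h.2.2.choose i))) - X (inl (inr (h.2.2.choose i)))).foldr dv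
        (fun P => if dim P = d + 2 then (len P
          ((Z.asIdeal.map (rename (Sum.map inl id)) ⊔ W.asIdeal.map (rename (Sum.map inr id))).map
            (map (algebraMap k _))) 0).toNat else 0) Q
    else 0

/-- The bilinear form is given by intersection numbers on subvarieties that meet properly. -/
def IsInt (S : Set (MvPolynomial ι k)) (d : ℕ) {n n' : ℕ} (B : CH S n →ₗ[ℚ] CH S n' →ₗ[ℚ] ℚ) :
    Prop :=
  ∀ (Z W) (hZ : Finsupp.single Z 1 ∈ Ch S Empty n) (hW : Finsupp.single W 1 ∈ Ch S Empty n'),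
    (∀ Q, Z ≤ Q → W ≤ Q → dim Q ≤ 1) →
      B (Submodule.Quotient.mk ⟨_, hZ⟩) (Submodule.Quotient.mk ⟨_, hW⟩) = inum S d Z W

/-- The higher Chow groups vanish and the intersection pairings are perfect. -/
def Q1 (S : Set (MvPolynomial ι k)) (d : ℕ) : Prop :=
  (∀ m e, ∀ z ∈ Ch S (Fin (m + 1)) e, Cl inr z → z ∈ Bd S (Fin (m + 1)) e) ∧
  ∀ n n', n + n' = d → ∃ B : CH S n →ₗ[ℚ] CH S n' →ₗ[ℚ] ℚ,
    B.IsPerfPair ∧ ∀ B', IsInt S d B' ↔ B' = B

section flags

variable {F K : Type} [Field F] [Fintype F] [Field K] [Algebra F K] {n m : ℕ}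

/-- A basis of an isotropic flag `D 0 < ... < D m` with `Frob (D i) ≤ D (i + 1)`. -/
def Flag (M : Matrix (Fin n) (Fin n) F) (v : Fin (m + 1) → Fin n → K) : Prop :=
  LinearIndependent K v ∧
  (∀ x ∈ Submodule.span K (Set.range v), ∑ a, ∑ b, algebraMap F K (M a b) * x a * x b = 0) ∧
  ∀ i : Fin m, (fun a => v i.castSucc a ^ Fintype.card F) ∈
    Submodule.span K (v '' {j | j ≤ i.succ})

/-- Indices of the Segre product of the Pluecker coordinates of the `D i` with `i ∈ J`. -/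
abbrev Idx (n : ℕ) (J : Finset (Fin (m + 1))) : Type := (Σ i : J, Fin (i.1 + 1)) → Fin n

/-- The Segre product of the Pluecker coordinates. -/
def seg {R : Type} [CommRing R] (J : Finset (Fin (m + 1))) (v : Fin (m + 1) → Fin n → R)
    (f : Idx n J) : R :=
  ∏ i : J, (Matrix.of fun a b : Fin (i.1 + 1) => v (b.castLE i.1.2) (f ⟨i, a⟩)).det

end flags

end Pool.Agent.MP_a9d3bd_h
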